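import Pool.Agent.H54.KVA.Defs2

/-!
# PIN: Pinsker's inequality and continuity of the entropy

`H (product) ≤ H (joint) + log 2 + √(mutual information) log |F|` for a function of two variables
with values in `F`.
-/

set_option autoImplicit false

namespace Pool.KVA

open Finset Real MeasureTheory
open Pool.Agent.H49.Ent Pool.Agent.H32.Dense Pool.STK

/-- The function `- x log x` is subadditive. -/
lemma negMulLog_add_le {x y : ℝ} (hx : 0 ≤ x) (hy : 0 ≤ y) :
    negMulLog (x + y) ≤ negMulLog x + negMulLog y := by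
  rcases hx.eq_or_lt with h | h
  · subst h; simp
  rcases hy.eq_or_lt with h' | h'
  · subst h'; simp
  unfold negMulLog
  have h1 : Real.log x ≤ Real.log (x + y) := Real.log_le_log h (by linarith only [h'])
  have h2 : Real.log y ≤ Real.log (x + y) := Real.log_le_log h' (by linarith only [h])
  nlinarith only [h1, h, h2, h', mul_le_mul_of_nonneg_left h1 h.le, mul_le_mul_of_nonneg_left h2 h'.le]

/-- The entropy of a vector of mass `δ`. -/
lemma sum_negMulLog_le {ι : Type*} (F : Finset ι) (hF : F.Nonempty) (U : ι → ℝ)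
    (hU : ∀ t ∈ F, 0 ≤ U t) :
    ∑ t ∈ F, negMulLog (U t) ≤ (∑ t ∈ F, U t) * Real.log F.card + negMulLog (∑ t ∈ F, U t) := by
  set δ := ∑ t ∈ F, U t with hδ
  have hδ0 : 0 ≤ δ := Finset.sum_nonneg hU
  have hn : (0 : ℝ) < F.card := by exact_mod_cast hF.card_pos
  rcases hδ0.eq_or_lt with h | h
  · have h0 : ∀ t ∈ F, U t = 0 := (Finset.sum_eq_zero_iff_of_nonneg hU).mp h.symm
    rw [← h]
    simp only [negMulLog_zero, zero_mul, add_zero]
    exact Finset.sum_nonpos fun t ht => by rw [h0 t ht]; simp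
  · have key : ∀ t ∈ F, negMulLog (U t) ≤ -U t * Real.log (δ / F.card) + (δ / F.card - U t) := by
      intro t ht
      rcases (hU t ht).eq_or_lt with h0 | h0
      · rw [← h0]; simp; positivity
      · have h4 := Real.log_le_sub_one_of_pos (x := δ / F.card / U t) (by positivity)
        rw [Real.log_div (by positivity) h0.ne'] at h4
        have h5 := mul_le_mul_of_nonneg_left h4 h0.le
        have h6 : U t * (δ / F.card / U t - 1) = δ / F.card - U t := by
          field_simp
        rw [h6] at h5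
        unfold negMulLog
        nlinarith only [h5]
    have h1 := Finset.sum_le_sum key
    rw [Finset.sum_add_distrib, Finset.sum_sub_distrib, ← Finset.sum_mul, Finset.sum_neg_distrib,
      ← hδ, Finset.sum_const, nsmul_eq_mul, mul_div_cancel₀ _ hn.ne', sub_self, add_zero,
      Real.log_div h.ne' hn.ne'] at h1
    have h2 : negMulLog δ = -δ * Real.log δ := rfl
    rw [h2]
    linarith only [h1]

/-- Continuity of the entropy. -/
lemma ent_cont {ι : Type*} (F : Finset ι) (hF : F.Nonempty) (P Q : ι → ℝ)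
    (hP : ∀ t ∈ F, 0 ≤ P t) (hQ : ∀ t ∈ F, 0 ≤ Q t) (hP1 : ∑ t ∈ F, P t = 1)
    (hQ1 : ∑ t ∈ F, Q t = 1) :
    ∑ t ∈ F, negMulLog (Q t) ≤ ∑ t ∈ F, negMulLog (P t) + Real.log 2 +
      (∑ t ∈ F, |P t - Q t|) / 2 * Real.log F.card := by
  have hmin : ∀ t, min (P t) (Q t) = (P t + Q t - |P t - Q t|) / 2 := fun t => by
    rcases le_total (P t) (Q t) with h | h
    · rw [min_eq_left h, abs_of_nonpos (by linarith only [h])]; ring
    · rw [min_eq_right h, abs_of_nonneg (by linarith)]; ring
  set δ := (∑ t ∈ F, |P t - Q t|) / 2 with hδ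
  set R : ι → ℝ := fun t => min (P t) (Q t) with hR
  have hR0 : ∀ t ∈ F, 0 ≤ R t := fun t ht => le_min (hP t ht) (hQ t ht)
  have hRP : ∀ t, R t ≤ P t := fun t => min_le_left _ _
  have hRQ : ∀ t, R t ≤ Q t := fun t => min_le_right _ _
  have hRs : ∑ t ∈ F, R t = 1 - δ := by
    rw [hR]
    simp only [hmin]
    rw [← Finset.sum_div, Finset.sum_sub_distrib, Finset.sum_add_distrib, hP1, hQ1, hδ]
    ring
  have hUs : ∑ t ∈ F, (Q t - R t) = δ := by
    rw [Finset.sum_sub_distrib, hRs, hQ1]; ring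
  have hVs : ∑ t ∈ F, (P t - R t) = δ := by
    rw [Finset.sum_sub_distrib, hRs, hP1]; ring
  have hδ0 : 0 ≤ δ := by rw [← hUs]; exact Finset.sum_nonneg fun t _ => by linarith only [hRQ, hRQ t]
  have hδ1 : δ ≤ 1 := by
    have := Finset.sum_nonneg hR0
    linarith only [hRs, this]
  -- upper bound
  have h1 : ∑ t ∈ F, negMulLog (Q t) ≤ ∑ t ∈ F, negMulLog (R t) +
      ∑ t ∈ F, negMulLog (Q t - R t) := by
    rw [← Finset.sum_add_distrib]
    refine Finset.sum_le_sum fun t ht => ?_
    have := negMulLog_add_le (hR0 t ht) (sub_nonneg.mpr (hRQ t))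
    rwa [add_sub_cancel] at this
  have h2 := sum_negMulLog_le F hF (fun t => Q t - R t) (fun t _ => sub_nonneg.mpr (hRQ t))
  simp only [hUs] at h2
  -- lower bound
  have h3 : ∀ t ∈ F, negMulLog (R t) ≤ negMulLog (P t) - R t * Real.log (1 - δ) := by
    intro t ht
    rcases (hR0 t ht).eq_or_lt with h0 | h0
    · rw [← h0]
      simp only [negMulLog_zero, zero_mul, sub_zero]
      refine negMulLog_nonneg (hP t ht) ?_
      rw [← hP1]; exact Finset.single_le_sum hP ht
    · have hc : R t ≤ 1 - δ := by rw [← hRs]; exact Finset.single_le_sum hR0 ht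
      have hc0 : 0 < 1 - δ := lt_of_lt_of_le h0 hc
      have hlc : Real.log (1 - δ) ≤ 0 := Real.log_nonpos hc0.le (by linarith only [hδ0])
      rcases (sub_nonneg.mpr (hRP t)).eq_or_lt with h0' | h0'
      · have : P t = R t := by linarith only [h0']
        rw [this]
        nlinarith only [h0, hlc, mul_nonneg h0.le (neg_nonneg.mpr hlc)]
      · have hv : P t - R t ≤ δ := by
          rw [← hVs]
          exact Finset.single_le_sum (f := fun t => P t - R t)
            (fun t _ => sub_nonneg.mpr (hRP t)) ht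
        have hd0 : 0 < δ := lt_of_lt_of_le h0' hv
        have hPt : 0 < P t := lt_of_lt_of_le h0 (hRP t)
        have e1 := Real.log_le_sub_one_of_pos (x := P t * (1 - δ) / R t) (by positivity)
        have e2 := Real.log_le_sub_one_of_pos (x := P t * δ / (P t - R t)) (by positivity)
        rw [Real.log_div (by positivity) (by positivity),
          Real.log_mul (by positivity) (by positivity)] at e1
        rw [Real.log_div (by positivity) h0'.ne',
          Real.log_mul (by positivity) (by positivity)] at e2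
        have e3 := mul_le_mul_of_nonneg_left e1 h0.le
        have e4 := mul_le_mul_of_nonneg_left e2 h0'.le
        have e5 : R t * (P t * (1 - δ) / R t - 1) = P t * (1 - δ) - R t := by field_simp
        have e6 : (P t - R t) * (P t * δ / (P t - R t) - 1) = P t * δ - (P t - R t) := by
          field_simp
        rw [e5] at e3
        rw [e6] at e4
        have e7 : Real.log (P t - R t) ≤ Real.log δ := Real.log_le_log h0' hv
        have e8 := mul_le_mul_of_nonneg_left e7 h0'.le
        unfold negMulLog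
        nlinarith only [e3, e4, e8]
  have h4 : ∑ t ∈ F, negMulLog (R t) ≤ ∑ t ∈ F, negMulLog (P t) + negMulLog (1 - δ) := by
    have := Finset.sum_le_sum h3
    rw [Finset.sum_sub_distrib, ← Finset.sum_mul, hRs] at this
    unfold negMulLog at this ⊢
    linarith only [this]
  have h5 : negMulLog (1 - δ) + negMulLog δ ≤ Real.log 2 := by
    have := Real.binEntropy_le_log_two (p := δ)
    rw [Real.binEntropy_eq_negMulLog_add_negMulLog_one_sub] at this
    linarith only [this]
  linarith

/-- Weak form of Pinsker's inequality for the mutual information. -/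
lemma pinsker {Ω S₁ S₂ : Type*} [Fintype Ω] [DecidableEq S₁] [DecidableEq S₂] (p : Ω → ℝ)
    (A : Ω → S₁) (B : Ω → S₂) (hp : ∀ ω, 0 ≤ p ω) (h1 : ∑ ω, p ω = 1) :
    ∑ g ∈ (univ.image A) ×ˢ (univ.image B), |law p (fun ω => (A ω, B ω)) g -
      law p A g.1 * law p B g.2| ≤
      2 * Real.sqrt (H p A + H p B - H p (fun ω => (A ω, B ω))) := by
  classical
  set G := (univ.image A) ×ˢ (univ.image B) with hG
  set P : S₁ × S₂ → ℝ := fun g => law p (fun ω => (A ω, B ω)) g with hPd
  set Q : S₁ × S₂ → ℝ := fun g => law p A g.1 * law p B g.2 with hQd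
  have hP0 : ∀ g, 0 ≤ P g := fun g => law_nonneg hp _ _
  have hQ0 : ∀ g, 0 ≤ Q g := fun g => mul_nonneg (law_nonneg hp _ _) (law_nonneg hp _ _)
  have hsub : univ.image (fun ω => (A ω, B ω)) ⊆ G := by
    intro g hg
    obtain ⟨ω, -, rfl⟩ := Finset.mem_image.mp hg
    exact Finset.mem_product.mpr ⟨Finset.mem_image_of_mem _ (Finset.mem_univ _),
      Finset.mem_image_of_mem _ (Finset.mem_univ _)⟩
  have hext : ∀ u : S₁ × S₂ → ℝ, ∑ ω, p ω * u (A ω, B ω) = ∑ g ∈ G, P g * u g := by
    intro u
    rw [sum_mul_eq_sum_image p (fun ω => (A ω, B ω)) u]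
    refine Finset.sum_subset hsub fun g _ hg => ?_
    rw [law_eq_zero_of_notMem p _ hg, zero_mul]
  have hP1 : ∑ g ∈ G, P g = 1 := by
    have := hext (fun _ => 1)
    simpa [h1] using this.symm
  have hQ1 : ∑ g ∈ G, Q g = 1 := by
    rw [hG, Finset.sum_product]
    simp only [hQd]
    simp_rw [← Finset.mul_sum]
    rw [← Finset.sum_mul, sum_law, sum_law, h1, one_mul]
  set I := H p A + H p B - H p (fun ω => (A ω, B ω)) with hI
  -- the Hellinger distance is at most the information
  have hH : ∑ g ∈ G, (Real.sqrt (P g) - Real.sqrt (Q g)) ^ 2 ≤ I := by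
    have e1 : ∑ g ∈ G, (Real.sqrt (P g) - Real.sqrt (Q g)) ^ 2 =
        2 - 2 * ∑ g ∈ G, Real.sqrt (P g) * Real.sqrt (Q g) := by
      have : ∀ g ∈ G, (Real.sqrt (P g) - Real.sqrt (Q g)) ^ 2 =
          P g + Q g - 2 * (Real.sqrt (P g) * Real.sqrt (Q g)) := fun g _ => by
        have a1 := Real.sq_sqrt (hP0 g)
        have a2 := Real.sq_sqrt (hQ0 g)
        nlinarith only [a1, a2]
      rw [Finset.sum_congr rfl this, Finset.sum_sub_distrib, Finset.sum_add_distrib, hP1, hQ1,
        ← Finset.mul_sum]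
      norm_num
    have e2 : ∑ g ∈ G, Real.sqrt (P g) * Real.sqrt (Q g) =
        ∑ ω, p ω * (Real.sqrt (Q (A ω, B ω)) / Real.sqrt (P (A ω, B ω))) := by
      rw [hext (fun g => Real.sqrt (Q g) / Real.sqrt (P g))]
      refine Finset.sum_congr rfl fun g _ => ?_
      rcases (hP0 g).eq_or_lt with h | h
      · rw [← h]; simp
      · have hs : 0 < Real.sqrt (P g) := Real.sqrt_pos.mpr h
        nth_rewrite 2 [← Real.mul_self_sqrt h.le]
        field_simp
    have e3 : I = ∑ ω, p ω * (Real.log (P (A ω, B ω)) - Real.log (law p A (A ω)) -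
        Real.log (law p B (B ω))) := by
      rw [hI]
      unfold H
      simp only [mul_sub, Finset.sum_sub_distrib]
      ring
    rw [e1, e2, e3]
    have e4 : ∀ ω, p ω * 2 - 2 * (p ω * (Real.sqrt (Q (A ω, B ω)) /
        Real.sqrt (P (A ω, B ω)))) ≤ p ω * (Real.log (P (A ω, B ω)) - Real.log (law p A (A ω)) -
        Real.log (law p B (B ω))) := by
      intro ω
      rcases (hp ω).eq_or_lt with h | h
      · rw [← h]; simp
      · have a1 : 0 < P (A ω, B ω) := law_pos hp (fun ω => (A ω, B ω)) h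
        have a2 : 0 < law p A (A ω) := law_pos hp A h
        have a3 : 0 < law p B (B ω) := law_pos hp B h
        have a4 : 0 < Q (A ω, B ω) := mul_pos a2 a3
        have a5 := Real.log_le_sub_one_of_pos
          (x := Real.sqrt (Q (A ω, B ω)) / Real.sqrt (P (A ω, B ω)))
          (div_pos (Real.sqrt_pos.mpr a4) (Real.sqrt_pos.mpr a1))
        rw [Real.log_div (Real.sqrt_pos.mpr a4).ne' (Real.sqrt_pos.mpr a1).ne',
          Real.log_sqrt a4.le, Real.log_sqrt a1.le] at a5
        have a6 : Real.log (Q (A ω, B ω)) = Real.log (law p A (A ω)) +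
            Real.log (law p B (B ω)) := Real.log_mul a2.ne' a3.ne'
        rw [a6] at a5
        have a7 := mul_le_mul_of_nonneg_left a5 h.le
        nlinarith only [a7]
    have e5 := Finset.sum_le_sum fun ω (_ : ω ∈ Finset.univ) => e4 ω
    rw [Finset.sum_sub_distrib, ← Finset.sum_mul, h1, ← Finset.mul_sum] at e5
    linarith only [e5]
  have hI0 : 0 ≤ I := le_trans (Finset.sum_nonneg fun g _ => sq_nonneg _) hH
  -- Cauchy-Schwarz
  have hS : ∑ g ∈ G, (Real.sqrt (P g) + Real.sqrt (Q g)) ^ 2 ≤ 4 := by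
    have : ∀ g ∈ G, (Real.sqrt (P g) + Real.sqrt (Q g)) ^ 2 ≤ 2 * (P g + Q g) := fun g _ => by
      have a1 := Real.sq_sqrt (hP0 g)
      have a2 := Real.sq_sqrt (hQ0 g)
      nlinarith only [a1, a2, sq_nonneg (Real.sqrt (P g) - Real.sqrt (Q g))]
    refine (Finset.sum_le_sum this).trans ?_
    rw [← Finset.mul_sum, Finset.sum_add_distrib, hP1, hQ1]
    norm_num
  have hD : ∀ g ∈ G, |P g - Q g| =
      |Real.sqrt (P g) - Real.sqrt (Q g)| * (Real.sqrt (P g) + Real.sqrt (Q g)) := fun g _ => by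
    have a3 : P g - Q g = (Real.sqrt (P g) - Real.sqrt (Q g)) *
        (Real.sqrt (P g) + Real.sqrt (Q g)) := by
      have a1 := Real.sq_sqrt (hP0 g)
      have a2 := Real.sq_sqrt (hQ0 g)
      nlinarith only [a1, a2]
    rw [a3, abs_mul, abs_of_nonneg (add_nonneg (Real.sqrt_nonneg _) (Real.sqrt_nonneg _))]
  have hCS := Finset.sum_mul_sq_le_sq_mul_sq G
    (fun g => |Real.sqrt (P g) - Real.sqrt (Q g)|) (fun g => Real.sqrt (P g) + Real.sqrt (Q g))
  rw [← Finset.sum_congr rfl hD] at hCS
  simp only [sq_abs] at hCS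
  have hfin : (∑ g ∈ G, |P g - Q g|) ^ 2 ≤ I * 4 :=
    hCS.trans (mul_le_mul hH hS (Finset.sum_nonneg fun g _ => sq_nonneg _) hI0)
  refine abs_le_of_sq_le_sq' ?_ (by positivity) |>.2
  rw [mul_pow, Real.sq_sqrt hI0]
  linarith

/-- The law of a function of a pair, as a sum over the pairs of values. -/
lemma law_comp_pair {Ω S₁ S₂ T : Type*} [Fintype Ω] [DecidableEq S₁] [DecidableEq S₂]
    [DecidableEq T] (p : Ω → ℝ) (A : Ω → S₁) (B : Ω → S₂) (f : S₁ → S₂ → T) (t : T) :
    law p (fun ω => f (A ω) (B ω)) t = ∑ g ∈ (univ.image A) ×ˢ (univ.image B),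
      law p (fun ω => (A ω, B ω)) g * (if f g.1 g.2 = t then 1 else 0) := by
  have e1 : law p (fun ω => f (A ω) (B ω)) t =
      ∑ ω, p ω * (fun g : S₁ × S₂ => if f g.1 g.2 = t then (1 : ℝ) else 0) (A ω, B ω) := by
    unfold law
    refine Finset.sum_congr rfl fun ω _ => ?_
    by_cases h : f (A ω) (B ω) = t
    · simp [h]
    · simp [h]
  rw [e1, sum_mul_eq_sum_image p (fun ω => (A ω, B ω))
    (fun g : S₁ × S₂ => if f g.1 g.2 = t then (1 : ℝ) else 0)]
  refine Finset.sum_subset ?_ fun g _ hg => ?_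
  · intro g hg
    obtain ⟨ω, -, rfl⟩ := Finset.mem_image.mp hg
    exact Finset.mem_product.mpr ⟨Finset.mem_image_of_mem _ (Finset.mem_univ _),
      Finset.mem_image_of_mem _ (Finset.mem_univ _)⟩
  · rw [law_eq_zero_of_notMem p _ hg, zero_mul]

/-- The same for two independent samples. -/
lemma law_comp_prod {Ω S₁ S₂ T : Type} [Fintype Ω] [DecidableEq S₁] [DecidableEq S₂]
    [DecidableEq T] (p : Ω → ℝ) (A : Ω → S₁) (B : Ω → S₂) (f : S₁ → S₂ → T) (t : T) :
    law (pr2 p p) (fun w => f (A w.1) (B w.2)) t = ∑ g ∈ (univ.image A) ×ˢ (univ.image B),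
      law p A g.1 * law p B g.2 * (if f g.1 g.2 = t then 1 else 0) := by
  have e1 : law (pr2 p p) (fun w => f (A w.1) (B w.2)) t =
      ∑ ω, p ω * ∑ ω', p ω' * (if f (A ω) (B ω') = t then 1 else 0) := by
    unfold law pr2
    rw [Fintype.sum_prod_type]
    refine Finset.sum_congr rfl fun ω _ => ?_
    rw [Finset.mul_sum]
    refine Finset.sum_congr rfl fun ω' _ => ?_
    by_cases h : f (A ω) (B ω') = t
    · simp [h]
    · simp [h]
  have e2 : ∀ a : S₁, ∑ ω', p ω' * (if f a (B ω') = t then (1 : ℝ) else 0) =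
      ∑ b ∈ univ.image B, law p B b * (if f a b = t then 1 else 0) := fun a =>
    sum_mul_eq_sum_image p B (fun b => if f a b = t then (1 : ℝ) else 0)
  rw [e1]
  simp only [e2]
  rw [sum_mul_eq_sum_image p A (fun a => ∑ b ∈ univ.image B, law p B b *
    (if f a b = t then (1 : ℝ) else 0)), Finset.sum_product]
  refine Finset.sum_congr rfl fun a _ => ?_
  rw [Finset.mul_sum]
  refine Finset.sum_congr rfl fun b _ => ?_
  ring

theorem pin_thm : PINStmt := by
  intro Ω S₁ S₂ T _ p A B f F hp hF hf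
  classical
  obtain ⟨hp0, hp1⟩ := hp
  set G := (univ.image A) ×ˢ (univ.image B) with hG
  set P : T → ℝ := fun t => law p (fun ω => f (A ω) (B ω)) t with hP
  set Q : T → ℝ := fun t => law (pr2 p p) (fun w => f (A w.1) (B w.2)) t with hQ
  have hpp0 : ∀ w : Ω × Ω, 0 ≤ pr2 p p w := fun w => mul_nonneg (hp0 _) (hp0 _)
  have hpp1 : ∑ w : Ω × Ω, pr2 p p w = 1 := by
    unfold pr2
    rw [Fintype.sum_prod_type]
    simp only [← Finset.mul_sum, hp1, mul_one]
  have hFP : univ.image (fun ω => f (A ω) (B ω)) ⊆ F := by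
    intro t ht
    obtain ⟨ω, -, rfl⟩ := Finset.mem_image.mp ht
    exact hf ω ω
  have hFQ : univ.image (fun w : Ω × Ω => f (A w.1) (B w.2)) ⊆ F := by
    intro t ht
    obtain ⟨w, -, rfl⟩ := Finset.mem_image.mp ht
    exact hf w.1 w.2
  have hP1 : ∑ t ∈ F, P t = 1 := by
    rw [← hp1, ← sum_law p (fun ω => f (A ω) (B ω))]
    symm
    exact Finset.sum_subset hFP fun t _ ht => law_eq_zero_of_notMem p _ ht
  have hQ1 : ∑ t ∈ F, Q t = 1 := by
    rw [← hpp1, ← sum_law (pr2 p p) (fun w => f (A w.1) (B w.2))]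
    symm
    exact Finset.sum_subset hFQ fun t _ ht => law_eq_zero_of_notMem (pr2 p p) _ ht
  have hc := ent_cont F hF P Q (fun t _ => law_nonneg hp0 _ _) (fun t _ => law_nonneg hpp0 _ _)
    hP1 hQ1
  rw [← H_eq_sum_of_subset p (fun ω => f (A ω) (B ω)) hFP,
    ← H_eq_sum_of_subset (pr2 p p) (fun w => f (A w.1) (B w.2)) hFQ] at hc
  have hdist : ∑ t ∈ F, |P t - Q t| ≤ ∑ g ∈ G, |law p (fun ω => (A ω, B ω)) g -
      law p A g.1 * law p B g.2| := by
    calc ∑ t ∈ F, |P t - Q t|
        ≤ ∑ t ∈ F, ∑ g ∈ G, |law p (fun ω => (A ω, B ω)) g - law p A g.1 * law p B g.2| *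
            (if f g.1 g.2 = t then 1 else 0) := by
          refine Finset.sum_le_sum fun t _ => ?_
          have e : P t - Q t = ∑ g ∈ G, (law p (fun ω => (A ω, B ω)) g -
              law p A g.1 * law p B g.2) * (if f g.1 g.2 = t then 1 else 0) := by
            simp only [hP, hQ]
            rw [law_comp_pair p A B f t, law_comp_prod p A B f t, ← Finset.sum_sub_distrib]
            exact Finset.sum_congr rfl fun g _ => by ring
          rw [e]
          refine (Finset.abs_sum_le_sum_abs _ _).trans (Finset.sum_le_sum fun g _ => ?_)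
          rw [abs_mul]
          refine mul_le_mul_of_nonneg_left ?_ (abs_nonneg _)
          split_ifs <;> simp
      _ = ∑ g ∈ G, ∑ t ∈ F, |law p (fun ω => (A ω, B ω)) g - law p A g.1 * law p B g.2| *
            (if f g.1 g.2 = t then 1 else 0) := Finset.sum_comm
      _ ≤ ∑ g ∈ G, |law p (fun ω => (A ω, B ω)) g - law p A g.1 * law p B g.2| := by
          refine Finset.sum_le_sum fun g _ => ?_
          rw [← Finset.mul_sum, Finset.sum_ite_eq]
          have := abs_nonneg (law p (fun ω => (A ω, B ω)) g - law p A g.1 * law p B g.2)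
          split_ifs <;> simp [this]
  have hpin := pinsker p A B hp0 hp1
  have hlog : 0 ≤ Real.log F.card := Real.log_natCast_nonneg _
  have h6 : (∑ t ∈ F, |P t - Q t|) / 2 ≤
      Real.sqrt (H p A + H p B - H p (fun ω => (A ω, B ω))) := by
    linarith only [hdist, hpin]
  have h7 := mul_le_mul_of_nonneg_right h6 hlog
  linarith only [hc, h7]

end Pool.KVA
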