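import Pool.Agent.H54.KVA.Defs2
import Pool.Agent.H58.STK.Base

/-!
# PIZ: digits of a sum of two dependent vectors and of two independent vectors
-/

set_option autoImplicit false

namespace Pool.KVA

open Finset Real MeasureTheory
open Pool.Agent.H49.Ent Pool.Agent.H32.Dense Pool.STK Pool.STK.B58

/-- Two integer vectors which determine each other up to an error at most `1`. -/
lemma H_round {Ω : Type} [Fintype Ω] {d : ℕ} {p : Ω → ℝ} (hp : ∀ ω, 0 ≤ p ω)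
    (h1 : ∑ ω, p ω = 1) (U V : Ω → Fin d → ℤ)
    (h : ∀ ω ω', V ω = V ω' → ∀ i, |((U ω i - U ω' i : ℤ) : ℝ)| ≤ 1) :
    H p U ≤ H p V + d * Real.log 3 := by
  have e1 : H p U ≤ H p (fun ω => (U ω, V ω)) :=
    H_mono hp (fun ω ω' _ _ hh => (Prod.ext_iff.mp hh).1)
  have e2 := CH_le_vec hp h1 U V (fun _ => 1) (fun ω ω' _ _ hh i => h ω ω' hh i)
  rw [Ex_const h1] at e2
  unfold CH at e2
  norm_num at e2
  linarith

theorem piz_thm (hpin : PINStmt) : PIZStmt := by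
  intro d
  have hl3 : 0 ≤ Real.log 3 := Real.log_nonneg (by norm_num)
  have hl2 : 0 ≤ Real.log 2 := Real.log_nonneg (by norm_num)
  refine ⟨2 * (d * Real.log 3) + Real.log 2 + d * Real.log 2, by positivity, ?_⟩
  intro Ω _ p X Y k hp hX hY
  obtain ⟨hp0, hp1⟩ := hp
  have hpp0 : ∀ w : Ω × Ω, 0 ≤ pr2 p p w := fun w => mul_nonneg (hp0 _) (hp0 _)
  have hpp1 : ∑ w : Ω × Ω, pr2 p p w = 1 := by
    unfold pr2
    rw [Fintype.sum_prod_type]
    simp only [← Finset.mul_sum, hp1, mul_one]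
  have hfl : ∀ x y : ℝ, ⌊x + y⌋ = ⌊x⌋ + ⌊y⌋ ∨ ⌊x + y⌋ = ⌊x⌋ + ⌊y⌋ + 1 := by
    intro x y
    have a1 := Int.le_floor_add x y
    have a2 := Int.le_floor_add_floor x y
    omega
  have hrange : ∀ x : ℝ, 0 ≤ x → x < 1 → 0 ≤ ⌊(2 : ℝ) ^ k * x⌋ ∧ ⌊(2 : ℝ) ^ k * x⌋ < 2 ^ k := by
    intro x h0 h1
    refine ⟨Int.floor_nonneg.mpr (by positivity), Int.floor_lt.mpr ?_⟩
    push_cast
    have : (0 : ℝ) < 2 ^ k := by positivity
    nlinarith
  set F : Finset (Fin d → ℤ) := Fintype.piFinset fun _ => Finset.Ico 0 (2 ^ (k + 1)) with hF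
  have hmem : ∀ ω ω', Fl X k ω + Fl Y k ω' ∈ F := by
    intro ω ω'
    rw [hF, Fintype.mem_piFinset]
    intro i
    have a1 := hrange (X ω i) (hX ω i).1 (hX ω i).2
    have a2 := hrange (Y ω' i) (hY ω' i).1 (hY ω' i).2
    rw [Finset.mem_Ico, Pi.add_apply, Fl_apply, Fl_apply, pow_succ]
    constructor
    · linarith [a1.1, a2.1]
    · linarith [a1.2, a2.2]
  obtain ⟨ω₀⟩ : Nonempty Ω := by
    by_contra hcon
    rw [not_nonempty_iff] at hcon
    simp at hp1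
  have hcard : Real.log F.card = d * ((k + 1) * Real.log 2) := by
    rw [hF, Fintype.card_piFinset]
    simp only [Finset.prod_const, Finset.card_univ, Fintype.card_fin, Int.card_Ico, sub_zero]
    have : ((2 : ℤ) ^ (k + 1)).toNat = 2 ^ (k + 1) := by
      have : ((2 : ℤ) ^ (k + 1)) = ((2 ^ (k + 1) : ℕ) : ℤ) := by push_cast; rfl
      rw [this, Int.toNat_natCast]
    rw [this]
    push_cast
    rw [Real.log_pow, Real.log_pow]
    push_cast
    ring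
  have key := hpin Ω (Fin d → ℤ) (Fin d → ℤ) (Fin d → ℤ) p (Fl X k) (Fl Y k) (fun a b => a + b)
    F ⟨hp0, hp1⟩ ⟨_, hmem ω₀ ω₀⟩ hmem
  rw [hcard] at key
  -- rounding
  have r1 : H (pr2 p p) (Fl (Ad X Y) k) ≤
      H (pr2 p p) (fun w => Fl X k w.1 + Fl Y k w.2) + d * Real.log 3 := by
    refine H_round hpp0 hpp1 _ _ fun w w' hh i => ?_
    have hi := congrFun hh i
    simp only [Pi.add_apply, Fl_apply] at hi
    simp only [Fl_apply, Ad, mul_add]
    have a1 := hfl ((2 : ℝ) ^ k * X w.1 i) ((2 : ℝ) ^ k * Y w.2 i)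
    have a2 := hfl ((2 : ℝ) ^ k * X w'.1 i) ((2 : ℝ) ^ k * Y w'.2 i)
    rw [← Int.cast_abs]
    have : |⌊(2 : ℝ) ^ k * X w.1 i + 2 ^ k * Y w.2 i⌋ -
        ⌊(2 : ℝ) ^ k * X w'.1 i + 2 ^ k * Y w'.2 i⌋| ≤ 1 := by
      rw [abs_le]
      constructor <;> omega
    exact_mod_cast this
  have r2 : H p (fun ω => Fl X k ω + Fl Y k ω) ≤ H p (Fl (ad X Y) k) + d * Real.log 3 := by
    refine H_round hp0 hp1 _ _ fun w w' hh i => ?_
    have hi := congrFun hh i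
    simp only [Fl_apply, ad, mul_add] at hi
    simp only [Pi.add_apply, Fl_apply]
    have a1 := hfl ((2 : ℝ) ^ k * X w i) ((2 : ℝ) ^ k * Y w i)
    have a2 := hfl ((2 : ℝ) ^ k * X w' i) ((2 : ℝ) ^ k * Y w' i)
    rw [← Int.cast_abs]
    have : |⌊(2 : ℝ) ^ k * X w i⌋ + ⌊(2 : ℝ) ^ k * Y w i⌋ -
        (⌊(2 : ℝ) ^ k * X w' i⌋ + ⌊(2 : ℝ) ^ k * Y w' i⌋)| ≤ 1 := by
      rw [abs_le]
      constructor <;> omega
    exact_mod_cast this
  set s := Real.sqrt (H p (Fl X k) + H p (Fl Y k) - H p (fun ω => (Fl X k ω, Fl Y k ω))) with hs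
  have hs0 : 0 ≤ s := Real.sqrt_nonneg _
  have e1 : s * (d * ((k + 1) * Real.log 2)) ≤
      (2 * (d * Real.log 3) + Real.log 2 + d * Real.log 2) * (k + 1) * s := by
    have : 0 ≤ (2 * (d * Real.log 3) + Real.log 2) * ((k + 1) * s) := by positivity
    nlinarith
  have e2 : 0 ≤ (d : ℝ) * Real.log 2 := by positivity
  linarith

end Pool.KVA
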